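import Pool.Agent.R260.SC.FinalF

set_option autoImplicit false

open MeasureTheory

namespace Pool.Agent.Results.MP_41c25d_an.ExponentFour

/-- `tr |M|^4` exists in `ℝ` and equals `t`: in the orthonormal basis `b`, the series of the numbers
`⟨b_i, (M* M)² b_i⟩` converges (they are nonnegative) and has the sum `t`. -/
def HasTrFour {H : Type*} [NormedAddCommGroup H] [InnerProductSpace ℂ H] [CompleteSpace H]
    (b : HilbertBasis ℕ ℂ H) (M : H →L[ℂ] H) (t : ℝ) : Prop :=
  HasSum (fun i => (inner ℂ (b i)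
    (ContinuousLinearMap.adjoint M (M (ContinuousLinearMap.adjoint M (M (b i)))))).re) t

theorem hasTrFour_iff {H : Type*} [NormedAddCommGroup H] [InnerProductSpace ℂ H] [CompleteSpace H]
    (b : HilbertBasis ℕ ℂ H) (M : H →L[ℂ] H) (t : ℝ) :
    HasTrFour b M t ↔
      HasSum (fun i => ‖(ContinuousLinearMap.adjoint M) (M (b i))‖ ^ 2) t := by
  unfold HasTrFour
  have : (fun i => (inner ℂ (b i)
      (ContinuousLinearMap.adjoint M (M (ContinuousLinearMap.adjoint M (M (b i)))))).re) =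
      fun i => ‖(ContinuousLinearMap.adjoint M) (M (b i))‖ ^ 2 := by
    ext i
    rw [ContinuousLinearMap.adjoint_inner_right, ← ContinuousLinearMap.adjoint_inner_left,
      inner_self_eq_norm_sq_to_K]
    norm_cast
  rw [this]

/-- For any two operators `A`, `B` in the Schatten class `S_4` of a separable complex Hilbert space
there are `f, g` in complex `L_4(0,1)` with `‖αA + βB‖_4^4 = ‖αf + βg‖_4^4` for all complex
`α, β`. -/
theorem result {H : Type*} [NormedAddCommGroup H] [InnerProductSpace ℂ H] [CompleteSpace H]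
    (b : HilbertBasis ℕ ℂ H) (A B : H →L[ℂ] H)
    (hA : ∃ t, HasTrFour b A t) (hB : ∃ t, HasTrFour b B t) :
    ∃ f g : ℝ → ℂ, MemLp f 4 (volume.restrict (Set.Ioo (0:ℝ) 1)) ∧
      MemLp g 4 (volume.restrict (Set.Ioo (0:ℝ) 1)) ∧
      ∀ α β : ℂ, HasTrFour b (α • A + β • B)
        (∫ t in Set.Ioo (0:ℝ) 1, ‖α * f t + β * g t‖ ^ (4:ℝ)) := by
  obtain ⟨t, hA⟩ := hA
  obtain ⟨s, hB⟩ := hB
  rw [hasTrFour_iff] at hA hB
  obtain ⟨f, g, hf, hg, h⟩ := Pool.Agent.R260.SC.four_yes b A B hA.summable hB.summable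
  exact ⟨f, g, hf, hg, fun α β => (hasTrFour_iff b _ _).mpr (h α β)⟩

end Pool.Agent.Results.MP_41c25d_an.ExponentFour
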