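import Pool.Agent.R260.SC.FinalP

set_option autoImplicit false

open MeasureTheory Matrix

namespace Pool.Agent.Results.MP_41c25d_an.LargeExponents

/-- `tr |M|^p`: the sum of the numbers `λ^(p/2)` over the eigenvalues `λ` of `M* M`. -/
noncomputable def trPow {n : ℕ} (p : ℝ) (M : Matrix (Fin n) (Fin n) ℂ) : ℝ :=
  ∑ i, (isHermitian_conjTranspose_mul_self M).eigenvalues i ^ (p / 2)

/-- The complex span of `A, B` in `S_p` is isometric to a subspace of complex `L_p(0,1)`. -/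
def Embeds {n : ℕ} (p : ℝ) (A B : Matrix (Fin n) (Fin n) ℂ) : Prop :=
  ∃ f g : ℝ → ℂ, MemLp f (ENNReal.ofReal p) (volume.restrict (Set.Ioo (0:ℝ) 1)) ∧
    MemLp g (ENNReal.ofReal p) (volume.restrict (Set.Ioo (0:ℝ) 1)) ∧
    ∀ α β : ℂ, trPow p (α • A + β • B) =
      ∫ t in Set.Ioo (0:ℝ) 1, ‖α * f t + β * g t‖ ^ p

/-- For every real `p ≥ 8` the pair `1, E₁₂` of `2 × 2` matrices does not embed. -/
theorem result (p : ℝ) (hp : 8 ≤ p) :
    ¬ Embeds p (1 : Matrix (Fin 2) (Fin 2) ℂ) !![0, 1; 0, 0] :=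
  Pool.Agent.R260.SC.all_no p hp

end Pool.Agent.Results.MP_41c25d_an.LargeExponents
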